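import Pool.Agent.helper61.Y2.Spec

set_option autoImplicit false

namespace H61.Y2

open H61.Yorioka Cardinal

theorem U2_KK_succ (j : ℕ) : KK (j + 1) = KK j ^ 2 := by
  unfold KK
  rw [← pow_mul, pow_succ]

theorem U2_le_KK (j : ℕ) : 2 ^ j ≤ KK j := by
  unfold KK
  exact Nat.lt_two_pow_self.le

theorem U2_lt_KK (j : ℕ) : j < KK j :=
  lt_of_lt_of_le Nat.lt_two_pow_self (U2_le_KK j)

theorem U2_KK_mono {i j : ℕ} (h : i ≤ j) : KK i ≤ KK j := by
  unfold KK
  exact Nat.pow_le_pow_right (by norm_num) (Nat.pow_le_pow_right (by norm_num) h)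

theorem U2_two_le (j : ℕ) : 2 ≤ KK j := by
  unfold KK
  calc 2 = 2 ^ 1 := (pow_one 2).symm
    _ ≤ 2 ^ 2 ^ j := Nat.pow_le_pow_right (by norm_num) Nat.one_le_two_pow

theorem U2_add_le {f : ℕ → ℕ} (hf : StrictMono f) (a b : ℕ) : f a + b ≤ f (a + b) := by
  induction b with
  | zero => simp
  | succ b ih =>
    have := hf (Nat.lt_succ_self (a + b))
    have e : a + (b + 1) = (a + b).succ := rfl
    rw [e]
    omega

theorem U2_f_le {f : ℕ → ℕ} (hf : StrictMono f) (j : ℕ) :
    2 ^ j + f (KK j) ≤ f (KK (j + 1)) := by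
  have h1 := U2_le_KK j
  have h2 := U2_two_le j
  have h3 : KK j + KK j ≤ KK (j + 1) := by
    rw [U2_KK_succ, sq]
    calc KK j + KK j = 2 * KK j := by ring
      _ ≤ KK j * KK j := Nat.mul_le_mul_right _ h2
  have h4 := U2_add_le hf (KK j) (KK j)
  have h5 := hf.monotone h3
  omega

theorem U2_take {p s t w : List Bool} (h : p ++ s ++ w = t) :
    (t.drop p.length).take s.length = s := by
  subst h
  simp

theorem U2 (hGD : GD_stmt) (hCOR : COR_stmt) (hAVO : AVO_stmt) (hGV : GV_stmt) : U2_stmt := by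
  intro f u A T hf hu hA hT hLS
  obtain ⟨Φ, hΦ⟩ : ∃ Φ : Set (ℕ × List Bool), Φ = {x | ∃ j, ∃ s ∈ A j, x.1 = 2 ^ j ∧
    x.2 = s ++ List.replicate (f (KK (j + u j)) - (2 ^ j + f (KK j))) false} := ⟨_, rfl⟩
  have hset : {t : List Bool | ∃ l s, ∃ p : List Bool, (l, s) ∈ Φ ∧ p.length = l ∧ t = p ++ s} =
      TU f u A := by
    ext t
    constructor
    · rintro ⟨l, s', p, h1, h2, h3⟩
      rw [hΦ] at h1
      obtain ⟨j, s, hs, e1, e2⟩ := h1
      refine ⟨j, s, hs, p, h2.trans e1, ?_⟩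
      rw [h3]
      have e2' : s' = _ := e2
      rw [e2']
    · rintro ⟨j, s, hs, p, h2, h3⟩
      refine ⟨2 ^ j, _, p, ?_, h2, h3⟩
      rw [hΦ]
      exact ⟨j, s, hs, rfl, rfl⟩
  obtain ⟨q, M, hq, hC⟩ := hCOR T Φ (hGD f hf T hT) (by rw [hset]; exact hLS)
  obtain ⟨m4, hm4⟩ := hT 4
  obtain ⟨N₀, hN₀⟩ := hGV f hf T hT
  refine ⟨m4 + N₀ + M + q.length + 3, ?_⟩
  intro j hj s hs
  have hslen : s.length = f (KK j) := hA.len j s hs
  have hu1 := hu.one j
  have hF1 := U2_f_le hf j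
  have hF2 : f (KK (j + 1)) ≤ f (KK (j + u j)) := hf.monotone (U2_KK_mono (by omega))
  have hjK : j < KK (j + 1) := lt_of_lt_of_le (U2_lt_KK j) (U2_KK_mono (Nat.le_succ j))
  have hjK2 : j < KK (j + u j) := lt_of_lt_of_le (U2_lt_KK j) (U2_KK_mono (Nat.le_add_right _ _))
  have h2j : j < 2 ^ j := Nat.lt_two_pow_self
  -- the count
  have hc : 4 * cn T (f (KK (j + 1))) ≤ 2 ^ (2 ^ j - q.length) := by
    have h1 := hm4 (KK (j + 1)) (by omega)
    obtain ⟨i, rfl⟩ : ∃ i, j = i + 1 := ⟨j - 1, by omega⟩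
    have h2 : cn T (f (KK (i + 1 + 1))) ≤ 2 ^ 2 ^ i := by
      have h3 : cn T (f (KK (i + 1 + 1))) ^ 4 ≤ (2 ^ 2 ^ i) ^ 4 := by
        refine h1.trans (le_of_eq ?_)
        unfold KK
        rw [← pow_mul]
        congr 1
        ring
      exact le_of_pow_le_pow_left₀ (by norm_num) (Nat.zero_le _) h3
    have h4 : i < 2 ^ i := Nat.lt_two_pow_self
    have h5 : 2 ^ (i + 1) = 2 ^ i + 2 ^ i := by ring
    calc 4 * cn T (f (KK (i + 1 + 1))) ≤ 2 ^ 2 * 2 ^ 2 ^ i := by
          have : (2 : ℕ) ^ 2 = 4 := by norm_num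
          rw [this]
          exact Nat.mul_le_mul_left _ h2
      _ = 2 ^ (2 + 2 ^ i) := by rw [pow_add]
      _ ≤ 2 ^ (2 ^ (i + 1) - q.length) := Nat.pow_le_pow_right (by norm_num) (by omega)
  obtain ⟨p, hpl, hqp, hav⟩ := hAVO T q (2 ^ j) (f (KK (j + 1))) hq (by omega) hc
  obtain ⟨s', hs'⟩ : ∃ s' : List Bool,
    s' = s ++ List.replicate (f (KK (j + u j)) - (2 ^ j + f (KK j))) false := ⟨_, rfl⟩
  have hs'l : s'.length = f (KK j) + (f (KK (j + u j)) - (2 ^ j + f (KK j))) := by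
    rw [hs', List.length_append, List.length_replicate, hslen]
  have hvl : (p ++ s').length = f (KK (j + u j)) := by
    rw [List.length_append, hpl, hs'l]
    omega
  have hmem : (2 ^ j, s') ∈ Φ := by
    rw [hΦ]
    exact ⟨j, s, hs, rfl, hs'⟩
  have hlt : f (KK (j + u j)) < f (KK (j + u j + 1)) := by
    apply hf
    have h1 := U2_two_le (j + u j)
    rw [U2_KK_succ, sq]
    calc KK (j + u j) = 1 * KK (j + u j) := (one_mul _).symm
      _ < KK (j + u j) * KK (j + u j) := Nat.mul_lt_mul_of_pos_right (by omega) (by omega)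
  have hps : p ++ s <+: p ++ s' := by
    rw [hs', ← List.append_assoc]
    exact List.prefix_append _ _
  have hfin : ∀ t ∈ T, 2 ^ j + f (KK j) ≤ t.length → t.length < f (KK (j + u j + 1)) →
      (t <+: p ++ s' ∨ p ++ s' <+: t) → s ∈ BT f u T j := by
    intro t ht h1 h2 h3
    classical
    unfold BT
    rw [Finset.mem_filter]
    refine ⟨mem_level.2 hslen, t, ht, h1, h2, ?_⟩
    have h4 : p ++ s <+: t := by
      rcases h3 with h3 | h3
      · refine List.prefix_of_prefix_length_le hps h3 ?_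
        rw [List.length_append, hpl, hslen]
        exact h1
      · exact hps.trans h3
    obtain ⟨w, hw⟩ := h4
    have := U2_take hw
    rw [hpl, hslen] at this
    exact this
  by_cases hgood : Good T (p ++ s')
  · have hMl : M ≤ 2 ^ j + s'.length := by
      have : f (KK (j + u j)) ≥ KK (j + u j) := hf.id_le _
      rw [List.length_append, hpl] at hvl
      omega
    obtain ⟨t, ht, htq, htp⟩ := hC (2 ^ j) s' hmem hMl p hpl hqp hgood
    by_cases htR : t.length < f (KK (j + 1))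
    · exfalso
      obtain ⟨h1, h2⟩ := hav t ht htq htR
      have hpv : p <+: p ++ s' := List.prefix_append _ _
      rcases le_total t.length p.length with h | h
      · exact h1 (List.prefix_of_prefix_length_le htp hpv h)
      · exact h2 (List.prefix_of_prefix_length_le hpv htp h)
    · refine hfin t ht (by omega) ?_ (Or.inl htp)
      have := htp.length_le
      rw [hvl] at this
      omega
  · have hex : ∃ t ∈ T, p ++ s' <+: t ∧ (p ++ s').length < t.length ∧
        t.length < f (KK (j + u j) ^ 2) := by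
      by_contra hne
      apply hgood
      refine hN₀ (KK (j + u j)) (by omega) (p ++ s') hvl ?_
      intro t ht h1 h2
      by_contra h3
      exact hne ⟨t, ht, h1, h2, not_le.1 h3⟩
    obtain ⟨t, ht, h1, h2, h3⟩ := hex
    rw [hvl] at h2
    rw [← U2_KK_succ] at h3
    exact hfin t ht (by omega) h3 (Or.inr h1)

end H61.Y2
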